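import Mathlib

set_option autoImplicit false

/-! # A T₁ space with a positive refinement expansive homeomorphism is finite -/

namespace Pool.Agent.Results.MP_b50e26_gt.FiniteSpace

universe u

/-- `A ≺ 𝓒`: the set `A` is contained in a member of `𝓒`. -/
def Prec {X : Type u} (A : Set X) (C : Set (Set X)) : Prop := ∃ c ∈ C, A ⊆ c

/-- `𝓥` is an open cover of `X`. -/
def IsOpenCover {X : Type u} [TopologicalSpace X] (V : Set (Set X)) : Prop :=
  (∀ v ∈ V, IsOpen v) ∧ ∀ x : X, ∃ v ∈ V, x ∈ v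

/-- `f` is positive refinement expansive: there is a finite open cover `U 0, …, U (n-1)` such that
for every open cover `𝓥` and every sequence `k` of indices some `⋂_{j ≤ N} f^{-j}(U (k j))` is
contained in a member of `𝓥`. -/
def PositiveRefinementExpansive {X : Type u} [TopologicalSpace X] (f : X ≃ₜ X) : Prop :=
  ∃ (n : ℕ) (U : Fin n → Set X), (∀ i, IsOpen (U i)) ∧ (∀ x, ∃ i, x ∈ U i) ∧
    ∀ V : Set (Set X), IsOpenCover V → ∀ k : ℕ → Fin n, ∃ N : ℕ,
      Prec (⋂ (j : ℕ) (_ : j ≤ N), (f^[j]) ⁻¹' (U (k j))) V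

/-- the cylinder `⋂_{j ≤ N} f^{-j}(U (k j))` -/
def cyl {X : Type u} {n : ℕ} (f : X → X) (U : Fin n → Set X) (k : ℕ → Fin n) (N : ℕ) : Set X :=
  {x | ∀ j, j ≤ N → f^[j] x ∈ U (k j)}

theorem cyl_eq {X : Type u} {n : ℕ} (f : X → X) (U : Fin n → Set X) (k : ℕ → Fin n) (N : ℕ) :
    (⋂ (j : ℕ) (_ : j ≤ N), (f^[j]) ⁻¹' (U (k j))) = cyl f U k N := by
  ext x
  simp [cyl]

theorem uniform {X : Type u} {n : ℕ} (f : X → X) (U : Fin n → Set X) (V : Set (Set X))
    (h : ∀ k : ℕ → Fin n, ∃ N : ℕ, Prec (cyl f U k N) V) :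
    ∃ N : ℕ, ∀ k : ℕ → Fin n, Prec (cyl f U k N) V := by
  classical
  choose N hN using h
  have hopen : ∀ k : ℕ → Fin n, {k' : ℕ → Fin n | ∀ j ≤ N k, k' j = k j} ∈ nhds k := by
    intro k
    apply IsOpen.mem_nhds
    · have : {k' : ℕ → Fin n | ∀ j ≤ N k, k' j = k j} =
          ⋂ j ∈ Finset.range (N k + 1), {k' : ℕ → Fin n | k' j = k j} := by
        ext k'
        simp [Nat.lt_succ_iff]
      rw [this]
      apply isOpen_biInter_finset
      intro j _
      exact (isOpen_discrete ({k j} : Set (Fin n))).preimage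
        (continuous_apply (A := fun _ : ℕ => Fin n) j)
    · intro j _
      rfl
  obtain ⟨t, -, ht⟩ := isCompact_univ.elim_nhds_subcover _ (fun k _ => hopen k)
  refine ⟨t.sup N, fun k => ?_⟩
  obtain ⟨k', hk', hk⟩ := Set.mem_iUnion₂.mp (ht (Set.mem_univ k))
  obtain ⟨c, hc, hsub⟩ := hN k'
  refine ⟨c, hc, fun x hx => hsub ?_⟩
  intro j hj
  have h1 := hx j (hj.trans (Finset.le_sup hk'))
  rwa [hk j hj] at h1

theorem shift {X : Type u} {n : ℕ} (f : X → X) (U : Fin n → Set X) (N : ℕ)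
    (h : ∀ k : ℕ → Fin n, ∃ i, ∀ x, f x ∈ cyl f U k N → x ∈ U i) (m : ℕ) :
    ∀ k : ℕ → Fin n, ∃ k' : ℕ → Fin n, ∀ x, f^[m] x ∈ cyl f U k N → x ∈ cyl f U k' (m + N) := by
  induction m with
  | zero =>
    intro k
    refine ⟨k, fun x hx => ?_⟩
    simpa using hx
  | succ m ih =>
    intro k
    obtain ⟨k', hk'⟩ := ih k
    obtain ⟨i, hi⟩ := h k'
    refine ⟨fun j => if j = 0 then i else k' (j - 1), fun x hx => ?_⟩
    have h1 : f x ∈ cyl f U k' (m + N) := by
      apply hk'
      rwa [← Function.iterate_succ_apply]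
    intro j hj
    rcases Nat.eq_zero_or_pos j with rfl | hj0
    · simp only [if_true, Function.iterate_zero, id]
      apply hi
      intro j hj
      exact h1 j (by omega)
    · obtain ⟨j, rfl⟩ : ∃ j', j = j' + 1 := ⟨j - 1, by omega⟩
      have h2 := h1 j (by omega)
      rw [← Function.iterate_succ_apply] at h2
      simpa using h2

/-- A T₁ space admitting a positive refinement expansive homeomorphism is finite. -/
theorem result (X : Type u) [TopologicalSpace X] [T1Space X] (f : X ≃ₜ X)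
    (hf : PositiveRefinementExpansive f) : Finite X := by
  classical
  obtain ⟨n, U, hU, hcov, hexp⟩ := hf
  simp only [cyl_eq] at hexp
  -- a uniform `N` for the cover by the sets `f (U i)`
  obtain ⟨N, hN⟩ := uniform f U (Set.range fun i => f '' U i) (hexp _ ⟨by
    rintro _ ⟨i, rfl⟩
    exact f.isOpenMap _ (hU i), by
    intro x
    obtain ⟨i, hi⟩ := hcov (f.symm x)
    exact ⟨f '' U i, ⟨i, rfl⟩, f.symm x, hi, by simp⟩⟩)
  have hstep : ∀ k : ℕ → Fin n, ∃ i, ∀ x, f x ∈ cyl f U k N → x ∈ U i := by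
    intro k
    obtain ⟨_, ⟨i, rfl⟩, hi⟩ := hN k
    refine ⟨i, fun x hx => ?_⟩
    obtain ⟨y, hy, hyx⟩ := hi hx
    rwa [← f.injective hyx]
  by_contra hfin
  rw [not_finite_iff_infinite] at hfin
  obtain ⟨s, hs⟩ := Infinite.exists_subset_card_eq X (Fintype.card (Fin (N + 1) → Fin n) + 1)
  let V : Set (Set X) := {v | ∃ y ∈ s, v = ((s.erase y : Finset X) : Set X)ᶜ}
  have hV : IsOpenCover V := by
    constructor
    · rintro _ ⟨y, _, rfl⟩
      exact ((s.erase y).finite_toSet.isClosed).isOpen_compl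
    · intro x
      by_cases hx : x ∈ s
      · exact ⟨_, ⟨x, hx, rfl⟩, by simp⟩
      · have hne : s.Nonempty := by
          rw [← Finset.card_pos, hs]
          omega
        obtain ⟨y, hy⟩ := hne
        exact ⟨_, ⟨y, hy, rfl⟩, by simp [hx]⟩
  obtain ⟨m, hm⟩ := uniform f U V (hexp V hV)
  have hsh := shift f U N hstep m
  -- extend a word of length `N + 1` to a sequence
  have hw : ∀ w : Fin (N + 1) → Fin n, ∃ y ∈ s,
      ∀ x, (∀ j : Fin (N + 1), f^[m + j.val] x ∈ U (w j)) → x ∉ s.erase y := by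
    intro w
    let k : ℕ → Fin n := fun j => w ⟨min j N, by omega⟩
    obtain ⟨k', hk'⟩ := hsh k
    obtain ⟨_, ⟨y, hy, rfl⟩, hsub⟩ := hm k'
    refine ⟨y, hy, fun x hx => ?_⟩
    have h1 : x ∈ cyl f U k' (m + N) := by
      apply hk'
      intro j hj
      have h2 := hx ⟨j, by omega⟩
      rw [← Function.iterate_add_apply, add_comm]
      have h3 : k j = w ⟨j, by omega⟩ := by
        simp only [k]
        congr 1
        ext
        simp [hj]
      rw [h3]
      exact h2
    have h2 : x ∈ cyl f U k' m := fun j hj => h1 j (by omega)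
    have h3 : x ∈ ((s.erase y : Finset X) : Set X)ᶜ := hsub h2
    exact fun h => h3 (Finset.mem_coe.mpr h)
  choose y hy1 hy2 using hw
  have hsub : s ⊆ Finset.univ.image y := by
    intro x hx
    have : ∀ j : Fin (N + 1), ∃ i, f^[m + j.val] x ∈ U i := fun j => hcov _
    choose w hw using this
    have h1 := hy2 w x hw
    rw [Finset.mem_erase] at h1
    push Not at h1
    rw [Finset.mem_image]
    refine ⟨w, Finset.mem_univ _, ?_⟩
    by_contra hne
    exact h1 (fun h => hne h.symm) hx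
  have h1 := (Finset.card_le_card hsub).trans Finset.card_image_le
  rw [hs, Finset.card_univ] at h1
  omega

end Pool.Agent.Results.MP_b50e26_gt.FiniteSpace
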